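import Mathlib
import Pool.Agent.Helper36.Disk.Defs

open MeasureTheory Set Metric Filter Topology

noncomputable section

namespace Pool.Agent.Helper17.Disk

open Pool.Agent.Helper36.Disk

theorem msq_eq (x : Fin 4 → V4) (y : V4) :
    msq x y = Finset.univ.inf' Finset.univ_nonempty fun i => ‖y - x i‖ ^ 2 := by
  rw [Finset.inf'_univ_eq_ciInf]; rfl

theorem continuous_msq : Continuous fun p : (Fin 4 → V4) × V4 => msq p.1 p.2 := by
  simp only [msq_eq]
  apply Continuous.finset_inf'_apply
  intro i _
  fun_prop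

theorem continuous_msq_right (x : Fin 4 → V4) : Continuous fun y => msq x y := by
  simp only [msq_eq]
  apply Continuous.finset_inf'_apply
  intro i _
  fun_prop

theorem continuous_msq_left (y : V4) : Continuous fun x : Fin 4 → V4 => msq x y := by
  simp only [msq_eq]
  apply Continuous.finset_inf'_apply
  intro i _
  fun_prop

theorem msq_comp_perm (x : Fin 4 → V4) (σ : Equiv.Perm (Fin 4)) (y : V4) :
    msq (x ∘ σ) y = msq x y :=
  Equiv.iInf_comp (g := fun i => ‖y - x i‖ ^ 2) σ

theorem En_comp_perm (φ : ℝ → ℝ) (x : Fin 4 → V4) (σ : Equiv.Perm (Fin 4)) :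
    En φ (x ∘ σ) = En φ x := by
  unfold En
  simp only [msq_comp_perm]

theorem En_congr_iso (φ : ℝ → ℝ) (x : Fin 4 → V4) (A : V4 ≃ₗᵢ[ℝ] V4) (b : V4) :
    En φ (fun i => A (x i) + b) = En φ x := by
  unfold En
  have h1 : ∀ y, msq (fun i => A (x i) + b) (y + b) = msq (fun i => A (x i)) y := by
    intro y
    unfold msq
    congr 1
    ext i
    rw [add_sub_add_right_eq_sub]
  have h2 : ∀ y, msq (fun i => A (x i)) (A y) = msq x y := by
    intro y
    unfold msq
    congr 1
    ext i
    rw [← map_sub, A.norm_map]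
  calc ∫ y, φ (msq (fun i => A (x i) + b) y)
      = ∫ y, φ (msq (fun i => A (x i) + b) (y + b)) :=
        (integral_add_right_eq_self (fun y => φ (msq (fun i => A (x i) + b) y)) b).symm
    _ = ∫ y, φ (msq (fun i => A (x i)) y) := by simp only [h1]
    _ = ∫ y, φ (msq (fun i => A (x i)) (A y)) :=
        (A.measurePreserving.integral_comp A.toHomeomorph.measurableEmbedding
          (fun y => φ (msq (fun i => A (x i)) y))).symm
    _ = _ := by simp only [h2]

/-- test functions are continuous, bounded, and vanish for large arguments -/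
theorem test_props {φ : ℝ → ℝ} (hφ : IsTest φ) :
    Continuous φ ∧ ∃ R M : ℝ, 0 < R ∧ (∀ m, R ≤ m → φ m = 0) ∧ ∀ m, ‖φ m‖ ≤ M := by
  obtain ⟨χ, s₁, s₂, h1, h2, h3, h4, rfl⟩ := hφ
  have hc := h1.continuous
  refine ⟨by fun_prop, ?_⟩
  obtain ⟨M, hM⟩ := hc.bounded_above_of_compact_support h2
  obtain ⟨r, hr⟩ := h2.isCompact.isBounded.subset_closedBall 0
  refine ⟨|r| + |s₁| + |s₂| + 1, M + M, by positivity, ?_, ?_⟩
  · intro m hm
    have key : ∀ u, |r| < u → χ u = 0 := by
      intro u hu
      by_contra hne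
      have := hr (subset_tsupport χ hne)
      rw [mem_closedBall, dist_zero_right, Real.norm_eq_abs] at this
      have h5 := le_abs_self r
      have h6 := le_abs_self u
      linarith
    have h5 := le_abs_self s₁
    have h6 := le_abs_self s₂
    have h7 := abs_nonneg s₁
    have h8 := abs_nonneg s₂
    simp only
    rw [key (m - s₂) (by linarith), key (m - s₁) (by linarith), sub_zero]
  · intro m
    exact (norm_sub_le _ _).trans (add_le_add (hM _) (hM _))

theorem tendsto_En {φ : ℝ → ℝ} (hφ : IsTest φ) {z : ℕ → Fin 4 → V4} {x : Fin 4 → V4}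
    (hz : Tendsto z atTop (𝓝 x)) : Tendsto (fun n => En φ (z n)) atTop (𝓝 (En φ x)) := by
  obtain ⟨hc, R, M, hR, hR0, hM⟩ := test_props hφ
  obtain ⟨B, hB⟩ := hz.norm.bddAbove_range
  have hB' : ∀ n i, ‖z n i‖ ≤ B := fun n i => (norm_le_pi_norm (z n) i).trans (hB ⟨n, rfl⟩)
  have hM0 : 0 ≤ M := (norm_nonneg _).trans (hM 0)
  apply tendsto_integral_of_dominated_convergence
    (bound := (closedBall (0 : V4) (B + (R + 1))).indicator fun _ => M)
  · intro n
    exact (hc.comp (continuous_msq_right (z n))).aestronglyMeasurable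
  · rw [integrable_indicator_iff isClosed_closedBall.measurableSet]
    have hfin : volume (closedBall (0 : V4) (B + (R + 1))) ≠ ⊤ := measure_closedBall_lt_top.ne
    exact integrableOn_const hfin
  · intro n
    refine Eventually.of_forall fun y => ?_
    by_cases hy : y ∈ closedBall (0 : V4) (B + (R + 1))
    · rw [indicator_of_mem hy]; exact hM _
    · rw [indicator_of_notMem hy]
      rw [mem_closedBall, dist_zero_right, not_le] at hy
      have : R ≤ msq (z n) y := by
        unfold msq
        apply le_ciInf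
        intro i
        have h1 : ‖y‖ ≤ ‖y - z n i‖ + ‖z n i‖ := by
          calc ‖y‖ = ‖(y - z n i) + z n i‖ := by abel_nf
            _ ≤ _ := norm_add_le _ _
        have h2 := hB' n i
        have h3 : R + 1 ≤ ‖y - z n i‖ := by linarith
        nlinarith
      rw [hR0 _ this, norm_zero]
  · refine Eventually.of_forall fun y => ?_
    have hc2 : Continuous fun x : Fin 4 → V4 => φ (msq x y) := hc.comp (continuous_msq_left y)
    exact (hc2.tendsto x).comp hz

end Pool.Agent.Helper17.Disk
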