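import Mathlib
import Pool.Agent.Helper17.Disk.Energy

open MeasureTheory Set Metric Filter Topology

noncomputable section

namespace Pool.Agent.Helper17.Disk

open Pool.Agent.Helper36.Disk

theorem exists_iso {x x' : Fin 4 → V4} (h : ∀ i j, ‖x i - x j‖ = ‖x' i - x' j‖) :
    ∃ (A : V4 ≃ₗᵢ[ℝ] V4) (b : V4), ∀ i, x' i = A (x i) + b := by
  set u : Fin 4 → V4 := fun i => x i - x 3 with hu
  set v : Fin 4 → V4 := fun i => x' i - x' 3 with hv
  have hin : ∀ i j, inner ℝ (u i) (u j) = inner ℝ (v i) (v j) := by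
    intro i j
    rw [real_inner_eq_norm_mul_self_add_norm_mul_self_sub_norm_sub_mul_self_div_two,
      real_inner_eq_norm_mul_self_add_norm_mul_self_sub_norm_sub_mul_self_div_two]
    have e1 : u i - u j = x i - x j := by simp [hu]
    have e2 : v i - v j = x' i - x' j := by simp [hv]
    rw [e1, e2, h i j]
    simp only [hu, hv]
    rw [h i 3, h j 3]
  let U : (Fin 4 → ℝ) →ₗ[ℝ] V4 := Fintype.linearCombination ℝ u
  let W : (Fin 4 → ℝ) →ₗ[ℝ] V4 := Fintype.linearCombination ℝ v
  have hU : ∀ c, U c = ∑ i, c i • u i := fun c => by simp [U, Fintype.linearCombination_apply]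
  have hW : ∀ c, W c = ∑ i, c i • v i := fun c => by simp [W, Fintype.linearCombination_apply]
  have hnorm : ∀ c, ‖W c‖ = ‖U c‖ := by
    intro c
    have : ‖W c‖ ^ 2 = ‖U c‖ ^ 2 := by
      rw [← real_inner_self_eq_norm_sq, ← real_inner_self_eq_norm_sq, hU, hW]
      simp only [sum_inner, inner_sum, real_inner_smul_left, real_inner_smul_right, hin]
    exact (pow_left_inj₀ (norm_nonneg _) (norm_nonneg _) two_ne_zero).1 this
  have hker : LinearMap.ker U ≤ LinearMap.ker W := by
    intro c hc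
    rw [LinearMap.mem_ker] at hc ⊢
    rw [← norm_eq_zero, hnorm, hc, norm_zero]
  let L : LinearMap.range U →ₗ[ℝ] V4 :=
    (LinearMap.ker U).liftQ W hker ∘ₗ (U.quotKerEquivRange.symm : LinearMap.range U →ₗ[ℝ] _)
  have hL : ∀ c, L ⟨U c, LinearMap.mem_range_self U c⟩ = W c := by
    intro c
    simp only [L, LinearMap.comp_apply, LinearEquiv.coe_coe]
    rw [LinearMap.quotKerEquivRange_symm_apply_image]
    exact Submodule.liftQ_apply _ _ _
  let Li : LinearMap.range U →ₗᵢ[ℝ] V4 := ⟨L, by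
    rintro ⟨_, c, rfl⟩
    rw [hL, hnorm]
    rfl⟩
  let A : V4 ≃ₗᵢ[ℝ] V4 := Li.extend.toLinearIsometryEquiv rfl
  have hA : ∀ i, A (u i) = v i := by
    intro i
    have e1 : U (Pi.single i 1) = u i := by
      rw [hU, Finset.sum_eq_single_of_mem i (Finset.mem_univ i)]
      · simp
      · intro j _ hj; simp [hj]
    have e2 : W (Pi.single i 1) = v i := by
      rw [hW, Finset.sum_eq_single_of_mem i (Finset.mem_univ i)]
      · simp
      · intro j _ hj; simp [hj]
    have e3 := Li.extend_apply ⟨U (Pi.single i 1), LinearMap.mem_range_self U _⟩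
    have e4 : Li ⟨U (Pi.single i 1), LinearMap.mem_range_self U _⟩ = W (Pi.single i 1) := hL _
    rw [e4] at e3
    simp only at e3
    rw [e1, e2] at e3
    exact e3
  refine ⟨A, x' 3 - A (x 3), fun i => ?_⟩
  have := hA i
  simp only [hu, hv, map_sub] at this
  rw [← sub_eq_zero] at this ⊢
  rw [← neg_eq_zero, ← this]
  abel

theorem En_congr (φ : ℝ → ℝ) {x x' : Fin 4 → V4} (h : ∀ i j, ‖x i - x j‖ = ‖x' i - x' j‖) :
    En φ x' = En φ x := by
  obtain ⟨A, b, hAb⟩ := exists_iso h
  have : x' = fun i => A (x i) + b := funext hAb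
  rw [this, En_congr_iso]

end Pool.Agent.Helper17.Disk
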