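import Mathlib
import Pool.Agent.Helper17.Disk.Congr

open MeasureTheory Set Metric Filter Topology

noncomputable section

namespace Pool.Agent.Helper17.Disk

open Pool.Agent.Helper36.Disk

/-- affinely independent configurations -/
def ND (x : Fin 4 → V4) : Prop := ∀ c : Fin 4 → ℝ, ∑ i, c i = 0 → ∑ i, c i • x i = 0 → c = 0

theorem conf_sq (L a₀ r₀ a₁ r₁ ω : ℝ) :
    ‖conf L a₀ r₀ a₁ r₁ ω 0 - conf L a₀ r₀ a₁ r₁ ω 1‖ ^ 2 =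
      (a₀ - a₁) ^ 2 + r₀ ^ 2 + r₁ ^ 2 - 2 * r₀ * r₁ * Real.cos ω ∧
    ‖conf L a₀ r₀ a₁ r₁ ω 0 - conf L a₀ r₀ a₁ r₁ ω 2‖ ^ 2 = a₀ ^ 2 + r₀ ^ 2 ∧
    ‖conf L a₀ r₀ a₁ r₁ ω 0 - conf L a₀ r₀ a₁ r₁ ω 3‖ ^ 2 = (a₀ - L) ^ 2 + r₀ ^ 2 ∧
    ‖conf L a₀ r₀ a₁ r₁ ω 1 - conf L a₀ r₀ a₁ r₁ ω 2‖ ^ 2 = a₁ ^ 2 + r₁ ^ 2 ∧
    ‖conf L a₀ r₀ a₁ r₁ ω 1 - conf L a₀ r₀ a₁ r₁ ω 3‖ ^ 2 = (a₁ - L) ^ 2 + r₁ ^ 2 ∧
    ‖conf L a₀ r₀ a₁ r₁ ω 2 - conf L a₀ r₀ a₁ r₁ ω 3‖ ^ 2 = L ^ 2 := by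
  have hs := Real.sin_sq_add_cos_sq ω
  refine ⟨?_, ?_, ?_, ?_, ?_, ?_⟩ <;>
    (rw [EuclideanSpace.real_norm_sq_eq, Fin.sum_univ_four]; simp [conf])
  · linear_combination r₀ ^ 2 * hs
  · linear_combination r₀ ^ 2 * hs
  · linear_combination r₀ ^ 2 * hs

theorem conf_eq {φ : ℝ → ℝ} {x : Fin 4 → V4} {L a₀ r₀ a₁ r₁ : ℝ} (hL : 0 < L) (hr₀ : 0 < r₀)
    (hr₁ : 0 < r₁) (h02 : ‖x 0 - x 2‖ ^ 2 = a₀ ^ 2 + r₀ ^ 2)
    (h03 : ‖x 0 - x 3‖ ^ 2 = (a₀ - L) ^ 2 + r₀ ^ 2) (h12 : ‖x 1 - x 2‖ ^ 2 = a₁ ^ 2 + r₁ ^ 2)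
    (h13 : ‖x 1 - x 3‖ ^ 2 = (a₁ - L) ^ 2 + r₁ ^ 2) (h23 : ‖x 2 - x 3‖ ^ 2 = L ^ 2) :
    En φ x = En φ (conf L a₀ r₀ a₁ r₁
      (Real.arccos (((a₀ - a₁) ^ 2 + r₀ ^ 2 + r₁ ^ 2 - ‖x 0 - x 1‖ ^ 2) / (2 * r₀ * r₁)))) := by
  set t := ((a₀ - a₁) ^ 2 + r₀ ^ 2 + r₁ ^ 2 - ‖x 0 - x 1‖ ^ 2) / (2 * r₀ * r₁) with ht
  set e := x 3 - x 2 with he
  set u₀ := x 0 - x 2 with hu₀
  set u₁ := x 1 - x 2 with hu₁
  have e0 : x 0 - x 3 = u₀ - e := by simp [he, hu₀]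
  have e1 : x 1 - x 3 = u₁ - e := by simp [he, hu₁]
  have e01 : x 0 - x 1 = u₀ - u₁ := by simp [hu₀, hu₁]
  have e23 : ‖e‖ ^ 2 = L ^ 2 := by rw [he, norm_sub_rev]; exact h23
  clear_value e u₀ u₁
  have i0 : inner ℝ u₀ e = a₀ * L := by
    have := norm_sub_sq_real u₀ e
    rw [← e0] at this
    linarith
  have i1 : inner ℝ u₁ e = a₁ * L := by
    have := norm_sub_sq_real u₁ e
    rw [← e1] at this
    linarith
  have i01 := norm_sub_sq_real u₀ u₁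
  rw [← e01] at i01
  set y₀ := u₀ - (a₀ / L) • e with hy₀
  set y₁ := u₁ - (a₁ / L) • e with hy₁
  have n0 : ‖y₀‖ ^ 2 = r₀ ^ 2 := by
    rw [hy₀, norm_sub_sq_real, real_inner_smul_right, i0, norm_smul, mul_pow, e23, Real.norm_eq_abs,
      sq_abs, h02]
    field_simp
    ring
  have n1 : ‖y₁‖ ^ 2 = r₁ ^ 2 := by
    rw [hy₁, norm_sub_sq_real, real_inner_smul_right, i1, norm_smul, mul_pow, e23, Real.norm_eq_abs,
      sq_abs, h12]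
    field_simp
    ring
  have n0' : ‖y₀‖ = r₀ := (pow_left_inj₀ (norm_nonneg _) hr₀.le two_ne_zero).1 n0
  have n1' : ‖y₁‖ = r₁ := (pow_left_inj₀ (norm_nonneg _) hr₁.le two_ne_zero).1 n1
  have i1' : inner ℝ e u₁ = a₁ * L := by rw [real_inner_comm]; exact i1
  have hin : inner ℝ y₀ y₁ = inner ℝ u₀ u₁ - a₀ * a₁ := by
    rw [hy₀, hy₁, inner_sub_left, inner_sub_right, inner_sub_right, real_inner_smul_left,
      real_inner_smul_right, real_inner_smul_left, real_inner_smul_right, i0, i1',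
      real_inner_self_eq_norm_sq, e23]
    field_simp
    ring
  have htt : t = inner ℝ y₀ y₁ / (r₀ * r₁) := by
    rw [ht, hin]
    have : (a₀ - a₁) ^ 2 + r₀ ^ 2 + r₁ ^ 2 - ‖x 0 - x 1‖ ^ 2 = 2 * (inner ℝ u₀ u₁ - a₀ * a₁) := by
      rw [i01, h02, h12]; ring
    rw [this]
    field_simp
  have habs : |t| ≤ 1 := by
    rw [htt, abs_div, abs_of_pos (mul_pos hr₀ hr₁), div_le_one (mul_pos hr₀ hr₁)]
    have := abs_real_inner_le_norm y₀ y₁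
    rwa [n0', n1'] at this
  have hcos : Real.cos (Real.arccos t) = t := Real.cos_arccos (abs_le.1 habs).1 (abs_le.1 habs).2
  obtain ⟨c01, c02, c03, c12, c13, c23⟩ := conf_sq L a₀ r₀ a₁ r₁ (Real.arccos t)
  have c01' : ‖conf L a₀ r₀ a₁ r₁ (Real.arccos t) 0 - conf L a₀ r₀ a₁ r₁ (Real.arccos t) 1‖ ^ 2 =
      ‖x 0 - x 1‖ ^ 2 := by
    rw [c01, hcos, ht]
    field_simp
    ring
  have key : ∀ i j : Fin 4, i < j →
      ‖conf L a₀ r₀ a₁ r₁ (Real.arccos t) i - conf L a₀ r₀ a₁ r₁ (Real.arccos t) j‖ =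
      ‖x i - x j‖ := by
    intro i j hij
    apply (pow_left_inj₀ (norm_nonneg _) (norm_nonneg _) two_ne_zero).1
    fin_cases i <;> fin_cases j <;> first | (exfalso; revert hij; decide) | skip
    · exact c01'
    · rw [hu₀] at h02; exact c02.trans h02.symm
    · exact c03.trans h03.symm
    · rw [hu₁] at h12; exact c12.trans h12.symm
    · exact c13.trans h13.symm
    · exact c23.trans h23.symm
  apply En_congr
  intro i j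
  rcases lt_trichotomy i j with h | h | h
  · exact key i j h
  · subst h; simp
  · rw [norm_sub_rev, key j i h, norm_sub_rev]

theorem exists_params {x : Fin 4 → V4} (hx : ND x) : ∃ L a₀ r₀ a₁ r₁ : ℝ, 0 < L ∧ 0 < r₀ ∧ 0 < r₁ ∧
    ‖x 0 - x 2‖ ^ 2 = a₀ ^ 2 + r₀ ^ 2 ∧ ‖x 0 - x 3‖ ^ 2 = (a₀ - L) ^ 2 + r₀ ^ 2 ∧
    ‖x 1 - x 2‖ ^ 2 = a₁ ^ 2 + r₁ ^ 2 ∧ ‖x 1 - x 3‖ ^ 2 = (a₁ - L) ^ 2 + r₁ ^ 2 ∧
    ‖x 2 - x 3‖ ^ 2 = L ^ 2 := by
  have hL : 0 < ‖x 3 - x 2‖ := by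
    rw [norm_pos_iff]
    intro h
    have := hx ![0, 0, -1, 1] (by simp [Fin.sum_univ_four]) (by
      simp only [Fin.sum_univ_four, Matrix.cons_val]
      rw [← h]; module)
    have h3 := congrFun this 3
    simp at h3
  set L := ‖x 3 - x 2‖ with hLdef
  have hk : ∀ k : Fin 4, k = 0 ∨ k = 1 → ∃ a r : ℝ, 0 < r ∧ ‖x k - x 2‖ ^ 2 = a ^ 2 + r ^ 2 ∧
      ‖x k - x 3‖ ^ 2 = (a - L) ^ 2 + r ^ 2 := by
    intro k hk
    set e := x 3 - x 2 with he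
    set u := x k - x 2 with hu
    have e0 : x k - x 3 = u - e := by simp [he, hu]
    set a := inner ℝ u e / L with ha
    have hiL : inner ℝ u e = a * L := by rw [ha]; field_simp
    have hy : u - (a / L) • e ≠ 0 := by
      intro h
      rcases hk with rfl | rfl
      · have := hx ![1, 0, -1 + a / L, -(a / L)] (by simp [Fin.sum_univ_four]) (by
          simp only [Fin.sum_univ_four, Matrix.cons_val]
          rw [← h, hu, he]; module)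
        have h3 := congrFun this 0
        simp at h3
      · have := hx ![0, 1, -1 + a / L, -(a / L)] (by simp [Fin.sum_univ_four]) (by
          simp only [Fin.sum_univ_four, Matrix.cons_val]
          rw [← h, hu, he]; module)
        have h3 := congrFun this 1
        simp at h3
    clear_value e u
    refine ⟨a, ‖u - (a / L) • e‖, norm_pos_iff.2 hy, ?_, ?_⟩
    · rw [norm_sub_sq_real, real_inner_smul_right, hiL, norm_smul, mul_pow, Real.norm_eq_abs,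
        sq_abs, ← hLdef]
      field_simp
      ring
    · rw [e0, norm_sub_sq_real, norm_sub_sq_real, real_inner_smul_right, hiL, norm_smul, mul_pow,
        Real.norm_eq_abs, sq_abs, ← hLdef]
      field_simp
      ring
  obtain ⟨a₀, r₀, h1, h2, h3⟩ := hk 0 (Or.inl rfl)
  obtain ⟨a₁, r₁, h4, h5, h6⟩ := hk 1 (Or.inr rfl)
  exact ⟨L, a₀, r₀, a₁, r₁, hL, h1, h4, h2, h3, h5, h6, by rw [hLdef, norm_sub_rev]⟩

theorem edge01 (hSE : StatementSE) {φ : ℝ → ℝ} (hφ : IsTest φ) {x x' : Fin 4 → V4} (hx : ND x)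
    (h : ∀ i j : Fin 4, ¬ (i = 0 ∧ j = 1) → ¬ (i = 1 ∧ j = 0) → ‖x' i - x' j‖ = ‖x i - x j‖)
    (h01 : ‖x' 0 - x' 1‖ ≤ ‖x 0 - x 1‖) : En φ x' ≤ En φ x := by
  obtain ⟨L, a₀, r₀, a₁, r₁, hL, hr₀, hr₁, h02, h03, h12, h13, h23⟩ := exists_params hx
  have e1 := conf_eq (φ := φ) hL hr₀ hr₁ h02 h03 h12 h13 h23
  have e2 := conf_eq (φ := φ) (x := x') hL hr₀ hr₁
    (by rw [h 0 2 (by decide) (by decide)]; exact h02)
    (by rw [h 0 3 (by decide) (by decide)]; exact h03)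
    (by rw [h 1 2 (by decide) (by decide)]; exact h12)
    (by rw [h 1 3 (by decide) (by decide)]; exact h13)
    (by rw [h 2 3 (by decide) (by decide)]; exact h23)
  rw [e1, e2]
  apply hSE φ hφ L a₀ r₀ a₁ r₁ hL hr₀ hr₁
  · exact ⟨Real.arccos_nonneg _, Real.arccos_le_pi _⟩
  · exact ⟨Real.arccos_nonneg _, Real.arccos_le_pi _⟩
  · apply Real.arccos_le_arccos
    have : ‖x' 0 - x' 1‖ ^ 2 ≤ ‖x 0 - x 1‖ ^ 2 := by gcongr
    gcongr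

theorem ND_comp {x : Fin 4 → V4} (hx : ND x) (σ : Equiv.Perm (Fin 4)) : ND (x ∘ σ) := by
  intro c hc0 hc1
  have h1 : ∑ i, (c ∘ σ.symm) i = 0 := by
    rw [← hc0]
    exact Equiv.sum_comp σ.symm c
  have h2 : ∑ i, (c ∘ σ.symm) i • x i = 0 := by
    rw [← hc1]
    rw [← Equiv.sum_comp σ.symm (fun i => c i • (x ∘ σ) i)]
    simp
  have h3 := hx _ h1 h2
  ext i
  have := congrFun h3 (σ i)
  simpa using this

theorem exists_perm : ∀ i j : Fin 4, i ≠ j → ∃ σ : Equiv.Perm (Fin 4), σ 0 = i ∧ σ 1 = j := by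
  intro i j hij
  refine ⟨Equiv.swap (Equiv.swap 0 i 1) j * Equiv.swap 0 i, ?_, ?_⟩
  · revert hij; revert i j; decide
  · revert hij; revert i j; decide

theorem edge (hSE : StatementSE) {φ : ℝ → ℝ} (hφ : IsTest φ) {x x' : Fin 4 → V4} (hx : ND x)
    {i₀ j₀ : Fin 4} (hij : i₀ ≠ j₀)
    (h : ∀ i j : Fin 4, ¬ (i = i₀ ∧ j = j₀) → ¬ (i = j₀ ∧ j = i₀) → ‖x' i - x' j‖ = ‖x i - x j‖)
    (h01 : ‖x' i₀ - x' j₀‖ ≤ ‖x i₀ - x j₀‖) : En φ x' ≤ En φ x := by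
  obtain ⟨σ, hσ0, hσ1⟩ := exists_perm i₀ j₀ hij
  rw [← En_comp_perm φ x σ, ← En_comp_perm φ x' σ]
  apply edge01 hSE hφ (ND_comp hx σ)
  · intro i j h1 h2
    apply h
    · rintro ⟨h3, h4⟩
      rw [← hσ0] at h3
      rw [← hσ1] at h4
      exact h1 ⟨σ.injective h3, σ.injective h4⟩
    · rintro ⟨h3, h4⟩
      rw [← hσ1] at h3
      rw [← hσ0] at h4
      exact h2 ⟨σ.injective h3, σ.injective h4⟩
  · simp only [Function.comp_apply, hσ0, hσ1]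
    exact h01

end Pool.Agent.Helper17.Disk
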