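import Mathlib
import Pool.Agent.Helper17.Disk.Edge

open MeasureTheory Set Metric Filter Topology

noncomputable section

namespace Pool.Agent.Helper17.Disk

open Pool.Agent.Helper36.Disk

/-- quadratic form of a matrix of squared distances -/
def qf (D : Fin 4 → Fin 4 → ℝ) (c : Fin 4 → ℝ) : ℝ := -(∑ i, ∑ j, c i * c j * D i j) / 2

structure SymD (D : Fin 4 → Fin 4 → ℝ) : Prop where
  symm : ∀ i j, D i j = D j i
  diag : ∀ i, D i i = 0

theorem qf_sq (x : Fin 4 → V4) {c : Fin 4 → ℝ} (hc : ∑ i, c i = 0) :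
    ‖∑ i, c i • x i‖ ^ 2 = qf (fun i j => ‖x i - x j‖ ^ 2) c := by
  have := inner_sum_smul_sum_smul_of_sum_eq_zero x hc x hc
  rw [real_inner_self_eq_norm_sq] at this
  rw [this]
  simp only [qf, sq]

theorem symD_norm (x : Fin 4 → V4) : SymD fun i j => ‖x i - x j‖ ^ 2 :=
  ⟨fun i j => by rw [norm_sub_rev], fun i => by simp⟩

open scoped MatrixOrder in
theorem realize {D : Fin 4 → Fin 4 → ℝ} (hs : SymD D)
    (hD : ∀ c : Fin 4 → ℝ, ∑ i, c i = 0 → 0 ≤ qf D c) :
    ∃ y : Fin 4 → V4, y 3 = 0 ∧ ∀ i j, ‖y i - y j‖ ^ 2 = D i j := by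
  let G : Matrix (Fin 4) (Fin 4) ℝ := fun i j => (D i 3 + D j 3 - D i j) / 2
  have hG : G.PosSemidef := by
    apply Matrix.PosSemidef.of_dotProduct_mulVec_nonneg
    · ext i j
      rw [Matrix.conjTranspose_apply]
      simp only [G, star_trivial]
      rw [hs.symm i j]; ring
    · intro c
      have h1 := hD ![c 0, c 1, c 2, -c 0 - c 1 - c 2] (by simp [Fin.sum_univ_four])
      have h2 : star c ⬝ᵥ Matrix.mulVec G c = qf D ![c 0, c 1, c 2, -c 0 - c 1 - c 2] := by
        simp only [dotProduct, Matrix.mulVec, qf, Fin.sum_univ_four, G, Pi.star_apply, star_trivial,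
          Matrix.cons_val]
        rw [hs.symm 1 0, hs.symm 2 0, hs.symm 3 0, hs.symm 2 1, hs.symm 3 1, hs.symm 3 2,
          hs.diag 0, hs.diag 1, hs.diag 2, hs.diag 3]
        ring
      rw [h2]; exact h1
  obtain ⟨B, hB⟩ := CStarAlgebra.nonneg_iff_eq_star_mul_self.mp hG.nonneg
  have hB' : ∀ i j, G i j = ∑ k, B k i * B k j := by
    intro i j
    rw [hB]
    simp [Matrix.mul_apply, Matrix.star_apply]
  refine ⟨fun i => WithLp.toLp 2 fun k => B k i, ?_, ?_⟩
  · have h33 := hB' 3 3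
    have : G 3 3 = 0 := by simp only [G]; rw [hs.diag]; norm_num
    rw [this] at h33
    have h0 : ∀ k ∈ Finset.univ, B k 3 * B k 3 = 0 :=
      (Finset.sum_eq_zero_iff_of_nonneg (fun k _ => mul_self_nonneg _)).1 h33.symm
    ext k
    simpa using h0 k (Finset.mem_univ k)
  · intro i j
    rw [EuclideanSpace.real_norm_sq_eq]
    have e1 : ∀ k, ((WithLp.toLp 2 (fun k => B k i) - WithLp.toLp 2 (fun k => B k j) : V4) k) ^ 2
        = B k i * B k i - 2 * (B k i * B k j) + B k j * B k j := by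
      intro k; simp; ring
    simp only [e1, Finset.sum_add_distrib, Finset.sum_sub_distrib, ← Finset.mul_sum, ← hB']
    simp only [G]
    rw [hs.diag, hs.diag]
    ring

theorem ND_of {y : Fin 4 → V4} {D : Fin 4 → Fin 4 → ℝ} (hy : ∀ i j, ‖y i - y j‖ ^ 2 = D i j)
    (hD : ∀ c : Fin 4 → ℝ, ∑ i, c i = 0 → c ≠ 0 → 0 < qf D c) : ND y := by
  intro c hc0 hc1
  by_contra hne
  have h1 := qf_sq y hc0
  rw [hc1, norm_zero] at h1
  have h2 : (fun i j => ‖y i - y j‖ ^ 2) = D := by ext i j; exact hy i j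
  rw [h2] at h1
  have := hD c hc0 hne
  rw [← h1] at this
  simp at this

theorem norm_eq_of_sq {a b : V4} (h : ‖a‖ ^ 2 = ‖b‖ ^ 2) : ‖a‖ = ‖b‖ :=
  (pow_left_inj₀ (norm_nonneg _) (norm_nonneg _) two_ne_zero).1 h

theorem box (hSE : StatementSE) {φ : ℝ → ℝ} (hφ : IsTest φ) {D D' : Fin 4 → Fin 4 → ℝ}
    (hs : SymD D) (hs' : SymD D') (hle : ∀ i j, D' i j ≤ D i j)
    (hpos : ∀ D'', SymD D'' → (∀ i j, D' i j ≤ D'' i j) → (∀ i j, D'' i j ≤ D i j) →
      ∀ c : Fin 4 → ℝ, ∑ i, c i = 0 → c ≠ 0 → 0 < qf D'' c) {x x' : Fin 4 → V4}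
    (hx : ∀ i j, ‖x i - x j‖ ^ 2 = D i j) (hx' : ∀ i j, ‖x' i - x' j‖ ^ 2 = D' i j) :
    En φ x' ≤ En φ x := by
  classical
  let DS : Finset (Sym2 (Fin 4)) → Fin 4 → Fin 4 → ℝ := fun S i j =>
    if s(i, j) ∈ S then D' i j else D i j
  have hDS : ∀ S, SymD (DS S) := by
    intro S
    constructor
    · intro i j
      simp only [DS, Sym2.eq_swap (a := i) (b := j)]
      rw [hs.symm i j, hs'.symm i j]
    · intro i
      simp only [DS, hs.diag, hs'.diag, ite_self]
  have hDS1 : ∀ S i j, D' i j ≤ DS S i j := by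
    intro S i j
    simp only [DS]
    split_ifs
    · exact le_rfl
    · exact hle i j
  have hDS2 : ∀ S i j, DS S i j ≤ D i j := by
    intro S i j
    simp only [DS]
    split_ifs
    · exact hle i j
    · exact le_rfl
  have key : ∀ S : Finset (Sym2 (Fin 4)), ∀ y : Fin 4 → V4,
      (∀ i j, ‖y i - y j‖ ^ 2 = DS S i j) → En φ y ≤ En φ x := by
    intro S
    induction S using Finset.induction_on with
    | empty =>
      intro y hy
      apply le_of_eq
      apply En_congr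
      intro i j
      apply norm_eq_of_sq
      rw [hy, hx]
      simp [DS]
    | insert p S hp ih =>
      intro y hy
      induction p using Sym2.ind with
      | h i₀ j₀ =>
        have hne : ∀ i j, ¬ (i = i₀ ∧ j = j₀) → ¬ (i = j₀ ∧ j = i₀) →
            DS (insert s(i₀, j₀) S) i j = DS S i j := by
          intro i j h1 h2
          simp only [DS]
          have : s(i, j) ≠ s(i₀, j₀) := by
            intro h
            rcases Sym2.eq_iff.1 h with h | h
            · exact h1 h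
            · exact h2 h
          simp [Finset.mem_insert, this]
        by_cases hij : i₀ = j₀
        · apply ih
          intro i j
          rw [hy]
          by_cases h1 : i = i₀ ∧ j = j₀
          · obtain ⟨rfl, rfl⟩ := h1
            subst hij
            rw [(hDS _).diag, (hDS _).diag]
          · apply hne i j h1
            rintro ⟨rfl, rfl⟩
            exact h1 ⟨hij.symm, hij⟩
        · have hq : ∀ c : Fin 4 → ℝ, ∑ i, c i = 0 → c ≠ 0 → 0 < qf (DS S) c :=
            hpos _ (hDS S) (hDS1 S) (hDS2 S)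
          obtain ⟨y₀, -, hy₀⟩ := realize (hDS S) (by
            intro c hc
            by_cases h0 : c = 0
            · subst h0; simp [qf]
            · exact (hq c hc h0).le)
          refine le_trans ?_ (ih y₀ hy₀)
          apply edge hSE hφ (ND_of hy₀ hq) hij
          · intro i j h1 h2
            apply norm_eq_of_sq
            rw [hy, hy₀, hne i j h1 h2]
          · have : ‖y i₀ - y j₀‖ ^ 2 ≤ ‖y₀ i₀ - y₀ j₀‖ ^ 2 := by
              rw [hy, hy₀]
              have e1 : DS (insert s(i₀, j₀) S) i₀ j₀ = D' i₀ j₀ := by simp [DS]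
              rw [e1]
              exact hDS1 S i₀ j₀
            exact (pow_le_pow_iff_left₀ (norm_nonneg _) (norm_nonneg _) two_ne_zero).1 this
  apply key Finset.univ
  intro i j
  rw [hx']
  simp [DS]


theorem qf_lower {D D'' : Fin 4 → Fin 4 → ℝ} {κ : ℝ}
    (hD : ∀ c : Fin 4 → ℝ, ∑ i, c i = 0 → κ * ∑ i, c i ^ 2 ≤ qf D c)
    (hκ : 0 < κ) (hdist : ∀ i j, |D'' i j - D i j| ≤ κ / 4) :
    ∀ c : Fin 4 → ℝ, ∑ i, c i = 0 → c ≠ 0 → 0 < qf D'' c := by
  intro c hc hc0
  have h1 := hD c hc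
  have hpos : 0 < ∑ i, c i ^ 2 := by
    obtain ⟨i, hi⟩ := Function.ne_iff.1 hc0
    exact Finset.sum_pos' (fun i _ => sq_nonneg _) ⟨i, Finset.mem_univ i, by
      have : c i ≠ 0 := hi
      positivity⟩
  have h2 : |∑ i, ∑ j, c i * c j * (D'' i j - D i j)| ≤ κ / 4 * (4 * ∑ i, c i ^ 2) := by
    calc |∑ i, ∑ j, c i * c j * (D'' i j - D i j)|
        ≤ ∑ i, ∑ j, |c i| * |c j| * (κ / 4) := by
          refine (Finset.abs_sum_le_sum_abs _ _).trans (Finset.sum_le_sum fun i _ => ?_)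
          refine (Finset.abs_sum_le_sum_abs _ _).trans (Finset.sum_le_sum fun j _ => ?_)
          rw [abs_mul, abs_mul]
          have := hdist i j
          gcongr
      _ = κ / 4 * (∑ i, |c i|) ^ 2 := by
          simp only [← Finset.sum_mul, ← Finset.mul_sum]
          ring
      _ ≤ κ / 4 * (4 * ∑ i, c i ^ 2) := by
          have h3 := sq_sum_le_card_mul_sum_sq (s := (Finset.univ : Finset (Fin 4))) (f := fun i => |c i|)
          simp only [sq_abs, Finset.card_univ, Fintype.card_fin] at h3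
          push_cast at h3
          gcongr
  have h3 : qf D'' c = qf D c - (∑ i, ∑ j, c i * c j * (D'' i j - D i j)) / 2 := by
    simp only [qf, mul_sub, Finset.sum_sub_distrib]
    ring
  have h4 := (abs_le.1 h2).2
  rw [h3]
  nlinarith

theorem segment_le (hSE : StatementSE) {φ : ℝ → ℝ} (hφ : IsTest φ) {D₀ D₁ : Fin 4 → Fin 4 → ℝ} {κ : ℝ}
    (hκ : 0 < κ) (hs₀ : SymD D₀) (hs₁ : SymD D₁) (hle : ∀ i j, D₁ i j ≤ D₀ i j)
    (h₀ : ∀ c : Fin 4 → ℝ, ∑ i, c i = 0 → κ * ∑ i, c i ^ 2 ≤ qf D₀ c)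
    (h₁ : ∀ c : Fin 4 → ℝ, ∑ i, c i = 0 → κ * ∑ i, c i ^ 2 ≤ qf D₁ c) {x x' : Fin 4 → V4}
    (hx : ∀ i j, ‖x i - x j‖ ^ 2 = D₀ i j) (hx' : ∀ i j, ‖x' i - x' j‖ ^ 2 = D₁ i j) :
    En φ x' ≤ En φ x := by
  obtain ⟨n, hn⟩ := exists_nat_gt ((∑ i, ∑ j, (D₀ i j - D₁ i j)) / (κ / 4))
  have hsum : ∀ i j, D₀ i j - D₁ i j ≤ ∑ i, ∑ j, (D₀ i j - D₁ i j) := by
    intro i j
    have h1 : D₀ i j - D₁ i j ≤ ∑ j, (D₀ i j - D₁ i j) :=
      Finset.single_le_sum (f := fun j => D₀ i j - D₁ i j)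
        (fun j _ => sub_nonneg.2 (hle i j)) (Finset.mem_univ j)
    have h2 : ∑ j, (D₀ i j - D₁ i j) ≤ ∑ i, ∑ j, (D₀ i j - D₁ i j) :=
      Finset.single_le_sum (f := fun i => ∑ j, (D₀ i j - D₁ i j))
        (fun i _ => Finset.sum_nonneg fun j _ => sub_nonneg.2 (hle i j)) (Finset.mem_univ i)
    exact h1.trans h2
  have hn0 : (0 : ℝ) < n := by
    refine lt_of_le_of_lt ?_ hn
    have : 0 ≤ ∑ i, ∑ j, (D₀ i j - D₁ i j) :=
      Finset.sum_nonneg fun i _ => Finset.sum_nonneg fun j _ => sub_nonneg.2 (hle i j)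
    positivity
  have hstep : ∀ i j, (D₀ i j - D₁ i j) / n ≤ κ / 4 := by
    intro i j
    rw [div_le_iff₀ hn0]
    rw [div_lt_iff₀ (by positivity)] at hn
    have := hsum i j
    linarith
  let E : ℕ → Fin 4 → Fin 4 → ℝ := fun k i j => D₀ i j - k * ((D₀ i j - D₁ i j) / n)
  have hE : ∀ k, SymD (E k) := by
    intro k
    constructor
    · intro i j; simp only [E]; rw [hs₀.symm i j, hs₁.symm i j]
    · intro i; simp only [E]; rw [hs₀.diag, hs₁.diag]; simp
  have hEq : ∀ k ≤ n, ∀ c : Fin 4 → ℝ, ∑ i, c i = 0 → κ * ∑ i, c i ^ 2 ≤ qf (E k) c := by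
    intro k hk c hc
    have h2 := h₀ c hc
    have h3 := h₁ c hc
    have hk' : (k : ℝ) ≤ n := by exact_mod_cast hk
    have h4 : qf (E k) c = (1 - k / n) * qf D₀ c + (k / n) * qf D₁ c := by
      have e : ∀ i j, c i * c j * E k i j =
          (1 - k / n) * (c i * c j * D₀ i j) + (k / n) * (c i * c j * D₁ i j) := by
        intro i j; simp only [E]; field_simp; ring
      simp only [qf, e, Finset.sum_add_distrib, ← Finset.mul_sum]
      ring
    rw [h4]
    have h5 : 0 ≤ (k : ℝ) / n := by positivity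
    have h6 : (k : ℝ) / n ≤ 1 := by rw [div_le_one hn0]; exact hk'
    nlinarith [mul_le_mul_of_nonneg_left h2 (sub_nonneg.2 h6), mul_le_mul_of_nonneg_left h3 h5]
  have hE1 : ∀ k i j, E k i j - E (k + 1) i j = (D₀ i j - D₁ i j) / n := by
    intro k i j; simp only [E]; push_cast; ring
  have key : ∀ k ≤ n, ∀ y : Fin 4 → V4, (∀ i j, ‖y i - y j‖ ^ 2 = E k i j) → En φ y ≤ En φ x := by
    intro k
    induction k with
    | zero =>
      intro _ y hy
      apply le_of_eq
      apply En_congr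
      intro i j
      apply norm_eq_of_sq
      rw [hy, hx]
      simp [E]
    | succ k ih =>
      intro hk y hy
      have hk' : k ≤ n := by omega
      obtain ⟨y₀, -, hy₀⟩ := realize (hE k) (by
        intro c hc
        refine le_trans ?_ (hEq k hk' c hc)
        have : 0 ≤ ∑ i, c i ^ 2 := Finset.sum_nonneg fun i _ => sq_nonneg _
        positivity)
      refine le_trans ?_ (ih hk' y₀ hy₀)
      apply box hSE hφ (hE k) (hE (k + 1)) ?_ ?_ hy₀ hy
      · intro i j
        have h1 := hE1 k i j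
        have h2 : 0 ≤ (D₀ i j - D₁ i j) / n := div_nonneg (sub_nonneg.2 (hle i j)) hn0.le
        linarith
      · intro D'' _ hD1 hD2
        apply qf_lower (hEq k hk') hκ
        intro i j
        have h1 := hE1 k i j
        have h2 := hstep i j
        have h3 := hD1 i j
        have h4 := hD2 i j
        rw [abs_le]
        constructor <;> linarith
  apply key n le_rfl
  intro i j
  rw [hx']
  simp only [E]
  field_simp
  ring

/-- adding a multiple of the simplex metric -/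
def addS (D : Fin 4 → Fin 4 → ℝ) (δ : ℝ) : Fin 4 → Fin 4 → ℝ := fun i j =>
  D i j + if i = j then 0 else δ

theorem symD_addS {D : Fin 4 → Fin 4 → ℝ} (hs : SymD D) (δ : ℝ) : SymD (addS D δ) := by
  constructor
  · intro i j
    simp only [addS, hs.symm i j]
    by_cases h : i = j
    · simp [h]
    · simp [h, Ne.symm h]
  · intro i; simp [addS, hs.diag]

theorem qf_addS (D : Fin 4 → Fin 4 → ℝ) (δ : ℝ) {c : Fin 4 → ℝ} (hc : ∑ i, c i = 0) :
    qf (addS D δ) c = qf D c + δ / 2 * ∑ i, c i ^ 2 := by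
  have h3 : c 3 = -c 0 - c 1 - c 2 := by rw [Fin.sum_univ_four] at hc; linarith
  simp only [qf, addS, Fin.sum_univ_four]
  rw [h3]
  simp only [if_true, if_neg (show ¬ (0:Fin 4) = 1 by decide), if_neg (show ¬ (0:Fin 4) = 2 by decide),
    if_neg (show ¬ (0:Fin 4) = 3 by decide), if_neg (show ¬ (1:Fin 4) = 0 by decide),
    if_neg (show ¬ (1:Fin 4) = 2 by decide), if_neg (show ¬ (1:Fin 4) = 3 by decide),
    if_neg (show ¬ (2:Fin 4) = 0 by decide), if_neg (show ¬ (2:Fin 4) = 1 by decide),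
    if_neg (show ¬ (2:Fin 4) = 3 by decide), if_neg (show ¬ (3:Fin 4) = 0 by decide),
    if_neg (show ¬ (3:Fin 4) = 1 by decide), if_neg (show ¬ (3:Fin 4) = 2 by decide)]
  ring

theorem statementM (hSE : StatementSE) : StatementM := by
  intro φ hφ x x' hxx
  set D₀ : Fin 4 → Fin 4 → ℝ := fun i j => ‖x i - x j‖ ^ 2 with hD₀
  set D₁ : Fin 4 → Fin 4 → ℝ := fun i j => ‖x' i - x' j‖ ^ 2 with hD₁
  have hs₀ : SymD D₀ := symD_norm x
  have hs₁ : SymD D₁ := symD_norm x'
  have hle : ∀ i j, D₁ i j ≤ D₀ i j := by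
    intro i j
    have := hxx i j
    rw [dist_eq_norm, dist_eq_norm] at this
    simp only [hD₀, hD₁]
    gcongr
  have hq₀ : ∀ c : Fin 4 → ℝ, ∑ i, c i = 0 → 0 ≤ qf D₀ c := fun c hc => by
    rw [← qf_sq x hc]; positivity
  have hq₁ : ∀ c : Fin 4 → ℝ, ∑ i, c i = 0 → 0 ≤ qf D₁ c := fun c hc => by
    rw [← qf_sq x' hc]; positivity
  have hR : ∀ (D : Fin 4 → Fin 4 → ℝ), SymD D → (∀ c : Fin 4 → ℝ, ∑ i, c i = 0 → 0 ≤ qf D c) →
      ∀ n : ℕ, ∃ y : Fin 4 → V4, y 3 = 0 ∧ ∀ i j, ‖y i - y j‖ ^ 2 = addS D (1 / (n + 1)) i j := by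
    intro D hs hq n
    apply realize (symD_addS hs _)
    intro c hc
    rw [qf_addS D _ hc]
    have h1 := hq c hc
    have h2 : 0 ≤ ∑ i, c i ^ 2 := Finset.sum_nonneg fun i _ => sq_nonneg _
    positivity
  choose y hy3 hy using hR D₀ hs₀ hq₀
  choose y' hy3' hy' using hR D₁ hs₁ hq₁
  have hEn : ∀ n, En φ (y' n) ≤ En φ (y n) := by
    intro n
    have hδ : (0 : ℝ) < 1 / (n + 1) := by positivity
    apply segment_le hSE hφ (κ := 1 / (n + 1) / 2) (by positivity) (symD_addS hs₀ _)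
      (symD_addS hs₁ _) ?_ ?_ ?_ (hy n) (hy' n)
    · intro i j
      simp only [addS]
      have := hle i j
      linarith
    · intro c hc
      rw [qf_addS D₀ _ hc]
      have := hq₀ c hc
      linarith
    · intro c hc
      rw [qf_addS D₁ _ hc]
      have := hq₁ c hc
      linarith
  -- compactness
  have hbound : ∀ (D : Fin 4 → Fin 4 → ℝ) (y : ℕ → Fin 4 → V4), (∀ n, y n 3 = 0) →
      (∀ n i j, ‖y n i - y n j‖ ^ 2 = addS D (1 / (n + 1)) i j) →
      ∀ n, ‖y n‖ ≤ ∑ i, |D i 3| + 2 := by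
    intro D y h3 h n
    rw [pi_norm_le_iff_of_nonneg (by positivity)]
    intro i
    have h1 := h n i 3
    rw [h3 n, sub_zero] at h1
    have h2 : addS D (1 / (n + 1)) i 3 ≤ ∑ i, |D i 3| + 1 := by
      simp only [addS]
      have e1 : D i 3 ≤ ∑ i, |D i 3| := (le_abs_self _).trans
        (Finset.single_le_sum (f := fun i => |D i 3|) (fun i _ => abs_nonneg _) (Finset.mem_univ i))
      have e2 : (1 : ℝ) / (n + 1) ≤ 1 := by
        rw [div_le_one (by positivity)]
        have : (0 : ℝ) ≤ n := Nat.cast_nonneg n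
        linarith
      split_ifs <;> linarith
    have h3 : 0 ≤ ∑ i, |D i 3| := Finset.sum_nonneg fun i _ => abs_nonneg _
    nlinarith [norm_nonneg (y n i), sq_nonneg (‖y n i‖ - 1)]
  set R := max (∑ i, |D₀ i 3| + 2) (∑ i, |D₁ i 3| + 2) with hRdef
  have hmem : ∀ n, (y n, y' n) ∈ closedBall (0 : (Fin 4 → V4) × (Fin 4 → V4)) R := by
    intro n
    rw [mem_closedBall, dist_zero_right, Prod.norm_def]
    exact max_le_max (hbound D₀ y hy3 hy n) (hbound D₁ y' hy3' hy' n)
  obtain ⟨⟨z, z'⟩, -, ψ, hψ, hlim⟩ := (isCompact_closedBall _ _).tendsto_subseq hmem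
  have hz : Tendsto (fun n => y (ψ n)) atTop (𝓝 z) :=
    (continuous_fst.tendsto (z, z')).comp hlim
  have hz' : Tendsto (fun n => y' (ψ n)) atTop (𝓝 z') :=
    (continuous_snd.tendsto (z, z')).comp hlim
  have hδ : Tendsto (fun n => (1 : ℝ) / (ψ n + 1)) atTop (𝓝 0) :=
    tendsto_one_div_add_atTop_nhds_zero_nat.comp hψ.tendsto_atTop
  have hdist : ∀ (D : Fin 4 → Fin 4 → ℝ) (y : ℕ → Fin 4 → V4) (z : Fin 4 → V4),
      (∀ n i j, ‖y n i - y n j‖ ^ 2 = addS D (1 / (n + 1)) i j) →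
      Tendsto (fun n => y (ψ n)) atTop (𝓝 z) → ∀ i j, ‖z i - z j‖ ^ 2 = D i j := by
    intro D y z h hlim i j
    have h1 : Tendsto (fun n => ‖y (ψ n) i - y (ψ n) j‖ ^ 2) atTop (𝓝 (‖z i - z j‖ ^ 2)) := by
      have hc : Continuous fun w : Fin 4 → V4 => ‖w i - w j‖ ^ 2 := by fun_prop
      exact (hc.tendsto z).comp hlim
    have h2 : Tendsto (fun n => addS D (1 / (ψ n + 1)) i j) atTop (𝓝 (D i j)) := by
      simp only [addS]
      split_ifs
      · simp
      · have := (tendsto_const_nhds (x := D i j) (f := atTop)).add hδ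
        simpa using this
    simp only [h] at h1
    exact tendsto_nhds_unique h1 h2
  have e1 : En φ z = En φ x := by
    apply En_congr
    intro i j
    apply norm_eq_of_sq
    rw [hdist D₀ y z hy hz i j]
  have e2 : En φ z' = En φ x' := by
    apply En_congr
    intro i j
    apply norm_eq_of_sq
    rw [hdist D₁ y' z' hy' hz' i j]
  rw [← e1, ← e2]
  exact le_of_tendsto_of_tendsto' (tendsto_En hφ hz') (tendsto_En hφ hz) fun n => hEn (ψ n)

end Pool.Agent.Helper17.Disk
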